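import Pool.Agent.H31.MP.Targets2

/-! # BZ. Choice of the truncation -/

set_option autoImplicit false

open Finset Real
open scoped Nat

namespace Pool.Agent.H72.MTP

open Pool.Agent.H31.MP Pool.Agent.H30.BV

theorem pf_BZ : T_BZ := by
  intro L v η hL hv hη
  have hs : Summable (fun n : ℕ => L ^ n / (n ! : ℝ)) := Real.summable_pow_div_factorial L
  have hnn : ∀ n : ℕ, 0 ≤ L ^ n / (n ! : ℝ) := fun n => by positivity
  have ht := tendsto_sum_nat_add (fun n : ℕ => L ^ n / (n ! : ℝ))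
  obtain ⟨b, hb⟩ := Filter.eventually_atTop.1 (ht.eventually (gt_mem_nhds (mul_pos hη hv)))
  refine ⟨b, fun t => ?_⟩
  have h1 : ∀ t : ℕ, ∑ j ∈ range t, L ^ (2 * (b + j) + 1) / ((2 * (b + j) + 1)! : ℝ) ≤
      ∑ m ∈ range (2 * t), L ^ (m + 2 * b) / ((m + 2 * b)! : ℝ) := by
    intro t
    induction t with
    | zero => simp
    | succ t ih =>
      rw [Finset.sum_range_succ, show 2 * (t + 1) = 2 * t + 1 + 1 by ring,
        Finset.sum_range_succ, Finset.sum_range_succ]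
      have h2 : 2 * (b + t) + 1 = 2 * t + 1 + 2 * b := by ring
      rw [h2]
      have h3 := hnn (2 * t + 2 * b)
      linarith
  have h2 : ∑ m ∈ range (2 * t), L ^ (m + 2 * b) / ((m + 2 * b)! : ℝ) ≤
      ∑' m, L ^ (m + 2 * b) / ((m + 2 * b)! : ℝ) :=
    ((summable_nat_add_iff (2 * b)).2 hs).sum_le_tsum _ fun m _ => hnn _
  have h3 := hb (2 * b) (by omega)
  have h4 : ∑ j ∈ range t, L ^ (2 * (b + j) + 1) / ((2 * (b + j) + 1)! * v) =
      (∑ j ∈ range t, L ^ (2 * (b + j) + 1) / ((2 * (b + j) + 1)! : ℝ)) / v := by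
    rw [Finset.sum_div]
    refine Finset.sum_congr rfl fun j _ => ?_
    rw [div_div]
  rw [h4, div_le_iff₀ hv]
  have h5 := h1 t
  linarith

end Pool.Agent.H72.MTP
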