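import Pool.Agent.H31.MP.Basic

/-!
# Row LE of mtp_modules (helper72): expansion of the square
-/

set_option autoImplicit false

namespace Pool.Agent.H72.MTP

open Pool.Agent.H31.MP Pool.Agent.H30.BV Finset

theorem pf_LE : T_LE := by
  classical
  intro K z Y l h Ω f s
  unfold As
  have h1 : ∀ n, f n * Lam z Y l h n ^ 2 = ∑ d ∈ Bx K z Y, ∑ e ∈ Bx K z Y,
      l d * l e * (if ∀ i, Nat.lcm (d i) (e i) ∣ n + h i then f n else 0) := by
    intro n
    unfold Lam
    rw [sq, sum_mul_sum, mul_sum]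
    refine sum_congr rfl fun d _ => ?_
    rw [mul_sum]
    refine sum_congr rfl fun e _ => ?_
    have h2 : (∀ i, Nat.lcm (d i) (e i) ∣ n + h i) ↔ (∀ i, d i ∣ n + h i) ∧ ∀ i, e i ∣ n + h i := by
      constructor
      · intro h3
        exact ⟨fun i => (Nat.lcm_dvd_iff.1 (h3 i)).1, fun i => (Nat.lcm_dvd_iff.1 (h3 i)).2⟩
      · rintro ⟨h3, h4⟩ i
        exact Nat.lcm_dvd_iff.2 ⟨h3 i, h4 i⟩
    by_cases h3 : ∀ i, d i ∣ n + h i
    · by_cases h4 : ∀ i, e i ∣ n + h i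
      · rw [if_pos h3, if_pos h4, if_pos (h2.2 ⟨h3, h4⟩)]
        ring
      · rw [if_neg h4, if_neg (fun h5 => h4 (h2.1 h5).2)]
        ring
    · rw [if_neg h3, if_neg (fun h5 => h3 (h2.1 h5).1)]
      ring
  simp only [h1]
  rw [sum_comm]
  refine sum_congr rfl fun d _ => ?_
  rw [sum_comm]
  refine sum_congr rfl fun e _ => ?_
  rw [← mul_sum]
  congr 1
  rw [← sum_filter, filter_filter]

end Pool.Agent.H72.MTP
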