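import Pool.Agent.H31.MP.Targets2

/-! # SD. The admissible sets -/

set_option autoImplicit false

open Finset Real
open scoped Nat

namespace Pool.Agent.H72.MTP

open Pool.Agent.H31.MP Pool.Agent.H30.BV

theorem sd_sub {P Q : Finset ℕ} (h : P ⊆ Q) (lev b : ℕ → ℕ) (t : ℕ) :
    Sad P lev b t ⊆ Sad Q lev b t := by
  intro s hs
  unfold Sad at hs ⊢
  rw [Finset.mem_filter, Finset.mem_powerset] at hs ⊢
  exact ⟨hs.1.trans h, hs.2⟩

theorem sd_prod (K : ℕ) (z : ℝ) (P : Finset ℕ) (g : ℕ → ℝ) (hP : P ⊆ PZ z 2)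
    (hg : ∀ p ∈ P, 0 ≤ g p ∧ g p ≤ K / p) :
    ∏ p ∈ P, (1 + g p) ≤ (∏ p ∈ (Icc 1 ⌊z⌋₊).filter Nat.Prime, (1 - 1 / (p : ℝ))⁻¹) ^ K := by
  have hpr : ∀ p ∈ (Icc 1 ⌊z⌋₊).filter Nat.Prime, (1 : ℝ) ≤ (1 - 1 / (p : ℝ))⁻¹ := by
    intro p hp
    have hp2 : 2 ≤ p := (Finset.mem_filter.1 hp).2.two_le
    have hp2' : (2 : ℝ) ≤ p := by exact_mod_cast hp2
    have h1 : (1 : ℝ) / p ≤ 1 / 2 := one_div_le_one_div_of_le (by norm_num) hp2'
    have h2 : (0 : ℝ) < 1 / p := by positivity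
    exact (one_le_inv₀ (by linarith)).2 (by linarith)
  have hsub : P ⊆ (Icc 1 ⌊z⌋₊).filter Nat.Prime := by
    intro p hp
    have h := hP hp
    unfold PZ at h
    rw [Finset.mem_filter, Finset.mem_Icc] at h
    rw [Finset.mem_filter, Finset.mem_Icc]
    exact ⟨⟨by omega, h.1.2⟩, h.2.1⟩
  have h1 : ∏ p ∈ P, (1 + g p) ≤ ∏ p ∈ P, ((1 - 1 / (p : ℝ))⁻¹) ^ K := by
    refine Finset.prod_le_prod (fun p hp => by linarith [(hg p hp).1]) (fun p hp => ?_)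
    have hp2 : 2 ≤ p := (Finset.mem_filter.1 (hsub hp)).2.two_le
    have hp2' : (2 : ℝ) ≤ p := by exact_mod_cast hp2
    have h1 : (1 : ℝ) / p ≤ 1 / 2 := one_div_le_one_div_of_le (by norm_num) hp2'
    have h2 : (0 : ℝ) < 1 / p := by positivity
    have h3 : 1 + g p ≤ 1 + (K : ℝ) * (1 / p) := by
      have := (hg p hp).2
      rw [mul_one_div]
      linarith
    have h4 : 1 + (K : ℝ) * (1 / p) ≤ (1 + 1 / (p : ℝ)) ^ K :=
      one_add_mul_le_pow (by linarith) K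
    have h5 : (1 + 1 / (p : ℝ)) ≤ (1 - 1 / (p : ℝ))⁻¹ := by
      rw [le_inv_comm₀ (by linarith) (by linarith), inv_eq_one_div, le_div_iff₀ (by linarith)]
      nlinarith
    exact h3.trans (h4.trans (pow_le_pow_left₀ (by linarith) h5 K))
  have h2 : ∏ p ∈ P, (1 - 1 / (p : ℝ))⁻¹ ≤
      ∏ p ∈ (Icc 1 ⌊z⌋₊).filter Nat.Prime, (1 - 1 / (p : ℝ))⁻¹ := by
    refine Finset.prod_le_prod_of_subset_of_one_le hsub (fun p hp => ?_) (fun p hp _ => hpr p hp)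
    exact zero_le_one.trans (hpr p (hsub hp))
  have h3 : 0 ≤ ∏ p ∈ P, (1 - 1 / (p : ℝ))⁻¹ :=
    Finset.prod_nonneg fun p hp => zero_le_one.trans (hpr p (hsub hp))
  rw [Finset.prod_pow] at h1
  exact h1.trans (pow_le_pow_left₀ h3 h2 K)

theorem pf_SD (hLV : Pool.Agent.H30.BV.T_LV) (hMR : T_MR) : T_SD := by
  intro K
  obtain ⟨c, C, hc, hC, hM⟩ := hMR
  refine ⟨(1 / c) ^ K, K, by positivity, ?_⟩
  intro z P g b hz hP hg
  obtain ⟨l1, l2, l3, l4⟩ := hLV z 2 hz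
  refine ⟨fun s hs => l3 b s (sd_sub hP _ _ _ hs), ?_, fun p hp => l1 p (hP hp), l4⟩
  have hlog : 0 < Real.log z := Real.log_pos (by linarith)
  have h1 : ∑ s ∈ Sad P (lv z) (fun j => b + j) (nl z), ∏ p ∈ s, g p ≤
      ∑ s ∈ P.powerset, ∏ p ∈ s, g p := by
    refine Finset.sum_le_sum_of_subset_of_nonneg (Finset.filter_subset _ _) ?_
    intro s hs _
    exact Finset.prod_nonneg fun p hp => (hg p (Finset.mem_powerset.1 hs hp)).1
  have h2 : ∑ s ∈ P.powerset, ∏ p ∈ s, g p = ∏ p ∈ P, (1 + g p) := by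
    rw [Finset.prod_one_add]
  have h3 := sd_prod K z P g hP hg
  have h4 : ∏ p ∈ (Icc 1 ⌊z⌋₊).filter Nat.Prime, (1 - 1 / (p : ℝ))⁻¹ = (Me z)⁻¹ := by
    unfold Me
    rw [Finset.prod_inv_distrib]
  have h5 : (Me z)⁻¹ ≤ 1 / c * Real.log z := by
    have h := (hM z (by linarith)).1
    have h' : 0 < c / Real.log z := by positivity
    have h6 := inv_anti₀ h' h
    have h7 : (c / Real.log z)⁻¹ = 1 / c * Real.log z := by
      rw [inv_div]; ring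
    linarith
  have h6 : 0 ≤ (Me z)⁻¹ := by
    have h := (hM z (by linarith)).1
    have h' : 0 < c / Real.log z := by positivity
    exact inv_nonneg.2 (h'.le.trans h)
  rw [h4] at h3
  calc _ ≤ _ := h1
    _ = _ := h2
    _ ≤ _ := h3
    _ ≤ (1 / c * Real.log z) ^ K := pow_le_pow_left₀ h6 h5 K
    _ = _ := by rw [mul_pow]

end Pool.Agent.H72.MTP
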